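import Pool.Agent.Helper70.MM.Goals

/-! # MP_91ee6f_gt: the abstract induction step (packet MM-QCSTEP) -/

open MeasureTheory Set Metric Filter
open scoped ENNReal RealInnerProductSpace Topology

namespace Pool.Agent.Helper81.MM

open Pool.Agent.Helper70.MM

theorem qcStep : QCSTEP := by
  intro R κ A F G hR hκ hA hF hG hmax hmin hlast a b c ha hab hbc hcR
  by_contra hcon
  rw [not_le, lt_min_iff] at hcon
  obtain ⟨hFa, hFc⟩ := hcon
  have hab' : a < b := lt_of_le_of_ne hab (by rintro rfl; exact lt_irrefl _ hFa)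
  have hbc' : b < c := lt_of_le_of_ne hbc (by rintro rfl; exact lt_irrefl _ hFc)
  -- the minimum on `[a,c]`
  obtain ⟨r0, hr0, hr0min⟩ := isCompact_Icc.exists_isMinOn (s := Icc a c) ⟨b, hab, hbc⟩
    (hF.mono fun x hx => ⟨ha.trans hx.1, hx.2.trans_lt hcR⟩)
  have hr0le : ∀ s ∈ Icc a c, F r0 ≤ F s := fun s hs => hr0min hs
  have h0b : F r0 ≤ F b := hr0le b ⟨hab, hbc⟩
  have har0 : a < r0 := lt_of_le_of_ne hr0.1 (by rintro rfl; linarith)
  have hr0c : r0 < c := lt_of_le_of_ne hr0.2 (by rintro rfl; linarith)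
  have hr0pos : 0 < r0 := ha.trans_lt har0
  have k1 : κ * G r0 ≤ F r0 := by
    refine hmin r0 hr0pos.le (hr0c.trans hcR)
      ⟨min (r0 - a) (c - r0), lt_min (by linarith) (by linarith), ?_⟩
    intro s _ _ hs
    rw [lt_min_iff, abs_lt, abs_lt] at hs
    exact neg_le_neg (hr0le s ⟨by linarith [hs.1.1], by linarith [hs.2.2]⟩)
  -- the maximum on `[0,r0]`
  obtain ⟨r1, hr1, hr1max⟩ := isCompact_Icc.exists_isMaxOn (s := Icc 0 r0) ⟨r0, hr0pos.le, le_rfl⟩
    (hF.mono fun x hx => ⟨hx.1, hx.2.trans_lt (hr0c.trans hcR)⟩)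
  have hr1le : ∀ s ∈ Icc 0 r0, F s ≤ F r1 := fun s hs => hr1max hs
  have h1a : F a ≤ F r1 := hr1le a ⟨ha, har0.le⟩
  have hr1r0 : r1 < r0 := lt_of_le_of_ne hr1.2 (by rintro rfl; linarith)
  have k2 : F r1 ≤ κ * G r1 := by
    refine hmax r1 hr1.1 (hr1r0.trans (hr0c.trans hcR)) ⟨r0 - r1, by linarith, ?_⟩
    intro s hs0 _ hs
    rw [abs_lt] at hs
    exact hr1le s ⟨hs0, by linarith [hs.2]⟩
  have k3 : G r0 < G r1 := by
    have : κ * G r0 < κ * G r1 := by linarith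
    exact lt_of_mul_lt_mul_left this hκ.le
  have k4 : ∀ r, r0 ≤ r → r < R → G r ≤ G r0 := by
    intro r h1 h2
    have := hG r1 r0 r hr1.1 hr1r0.le h1 h2
    rcases min_le_iff.1 this with h | h
    · linarith
    · exact h
  have k5 : ∀ c', c < c' → c' < R → A ≤ (R ^ 2 - c' ^ 2) * G r0 := by
    intro c' hc1 hc2
    obtain ⟨r2, hr2, hr2max⟩ := isCompact_Icc.exists_isMaxOn (s := Icc r0 c')
      ⟨r0, le_rfl, (hr0c.trans hc1).le⟩
      (hF.mono fun x hx => ⟨hr0pos.le.trans hx.1, hx.2.trans_lt hc2⟩)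
    have hr2le : ∀ s ∈ Icc r0 c', F s ≤ F r2 := fun s hs => hr2max hs
    have h2c : F c ≤ F r2 := hr2le c ⟨hr0c.le, hc1.le⟩
    have hr2r0 : r0 < r2 := lt_of_le_of_ne hr2.1 (by rintro rfl; linarith)
    have h2c' : r2 = c' := by
      by_contra hne
      have hlt : r2 < c' := lt_of_le_of_ne hr2.2 hne
      have e1 : F r2 ≤ κ * G r2 := by
        refine hmax r2 (hr0pos.le.trans hr2.1) (hlt.trans hc2)
          ⟨min (r2 - r0) (c' - r2), lt_min (by linarith) (by linarith), ?_⟩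
        intro s _ _ hs
        rw [lt_min_iff, abs_lt, abs_lt] at hs
        exact hr2le s ⟨by linarith [hs.1.1], by linarith [hs.2.2]⟩
      have e2 : κ * G r2 ≤ κ * G r0 :=
        mul_le_mul_of_nonneg_left (k4 r2 hr2.1 (hlt.trans hc2)) hκ.le
      linarith
    subst h2c'
    have e3 := hlast r0 r2 hr0pos.le hr2r0 hc2 hr2le
    have e4 : 0 ≤ R ^ 2 - r2 ^ 2 := by
      have : 0 ≤ r2 := hr0pos.le.trans hr2.1
      nlinarith
    exact e3.trans (mul_le_mul_of_nonneg_left (k4 r2 hr2.1 hc2) e4)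
  have k6 : Tendsto (fun c' : ℝ => (R ^ 2 - c' ^ 2) * G r0) (𝓝[<] R) (𝓝 ((R ^ 2 - R ^ 2) * G r0)) := by
    refine Tendsto.mono_left ?_ nhdsWithin_le_nhds
    have : Continuous fun c' : ℝ => (R ^ 2 - c' ^ 2) * G r0 := by fun_prop
    exact this.tendsto R
  have k7 : A ≤ (R ^ 2 - R ^ 2) * G r0 := by
    refine ge_of_tendsto k6 ?_
    filter_upwards [Ioo_mem_nhdsLT hcR] with c' hc'
    exact k5 c' hc'.1 hc'.2
  rw [sub_self, zero_mul] at k7
  linarith

end Pool.Agent.Helper81.MM
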