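import Pool.Agent.Helper70.MM.Goals5

/-! # Project MM (MP_91ee6f_gt), packet MM5-CSE: Cauchy-Schwarz for the energy form -/

open MeasureTheory Set Metric
open scoped ENNReal RealInnerProductSpace Topology
open Pool.Agent.Results.MP_91ee6f_gt
open Pool.Agent.Helper67.MaxMeas

namespace Pool.Agent.Helper81.MM

open Pool.Agent.Helper70.MM

theorem integrable_of_bdd {n : ℕ} {f : En n → ℝ} (hf : Continuous f) (C : ℝ)
    (h : ∀ x, |f x| ≤ C) : Integrable f (cauchyLaw (En n)) :=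
  (integrable_const C).mono' hf.aestronglyMeasurable (Filter.Eventually.of_forall h)

theorem cse : CSE := by
  intro n μ ν α β _ _ _ _
  have hA : Continuous fun ξ => charFun μ ξ - charFun ν ξ := (charFun_cont μ).sub (charFun_cont ν)
  have hB : Continuous fun ξ => charFun α ξ - charFun β ξ := (charFun_cont α).sub (charFun_cont β)
  have bA : ∀ ξ, ‖charFun μ ξ - charFun ν ξ‖ ≤ μ.real univ + ν.real univ := fun ξ =>
    (norm_sub_le _ _).trans (add_le_add (norm_charFun_le _) (norm_charFun_le _))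
  have bB : ∀ ξ, ‖charFun α ξ - charFun β ξ‖ ≤ α.real univ + β.real univ := fun ξ =>
    (norm_sub_le _ _).trans (add_le_add (norm_charFun_le _) (norm_charFun_le _))
  have hM : ((bil μ α - bil μ β - bil ν α + bil ν β : ℝ) : ℂ) =
      ∫ ξ, (charFun μ ξ - charFun ν ξ) * (starRingEnd ℂ) (charFun α ξ - charFun β ξ)
        ∂(cauchyLaw (En n)) := by
    push_cast
    have i1 := integrable_charFun_mul μ α
    have i2 := integrable_charFun_mul μ β
    have i3 := integrable_charFun_mul ν α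
    have i4 := integrable_charFun_mul ν β
    have e1 := integral_sub i1 i2
    have e2 := integral_sub (i1.sub i2) i3
    have e3 := integral_add ((i1.sub i2).sub i3) i4
    simp only [Pi.sub_apply] at e1 e2 e3
    rw [bil_eq, bil_eq, bil_eq, bil_eq, ← e1, ← e2, ← e3]
    congr 1
    ext ξ
    simp only [map_sub]
    ring
  have iA : Integrable (fun ξ => ‖charFun μ ξ - charFun ν ξ‖ ^ 2) (cauchyLaw (En n)) := by
    refine integrable_of_bdd (hA.norm.pow 2) ((μ.real univ + ν.real univ) ^ 2) fun ξ => ?_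
    rw [abs_of_nonneg (by positivity)]
    exact pow_le_pow_left₀ (norm_nonneg _) (bA ξ) 2
  have iB : Integrable (fun ξ => ‖charFun α ξ - charFun β ξ‖ ^ 2) (cauchyLaw (En n)) := by
    refine integrable_of_bdd (hB.norm.pow 2) ((α.real univ + β.real univ) ^ 2) fun ξ => ?_
    rw [abs_of_nonneg (by positivity)]
    exact pow_le_pow_left₀ (norm_nonneg _) (bB ξ) 2
  have iAB : Integrable (fun ξ => ‖charFun μ ξ - charFun ν ξ‖ * ‖charFun α ξ - charFun β ξ‖)
      (cauchyLaw (En n)) := by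
    refine integrable_of_bdd (hA.norm.mul hB.norm)
      ((μ.real univ + ν.real univ) * (α.real univ + β.real univ)) fun ξ => ?_
    rw [abs_of_nonneg (by positivity)]
    exact mul_le_mul (bA ξ) (bB ξ) (norm_nonneg _) ((norm_nonneg _).trans (bA ξ))
  have hP : |bil μ α - bil μ β - bil ν α + bil ν β| ≤
      ∫ ξ, ‖charFun μ ξ - charFun ν ξ‖ * ‖charFun α ξ - charFun β ξ‖ ∂(cauchyLaw (En n)) := by
    have h := norm_integral_le_integral_norm (μ := cauchyLaw (En n))
      fun ξ => (charFun μ ξ - charFun ν ξ) * (starRingEnd ℂ) (charFun α ξ - charFun β ξ)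
    rw [← hM, Complex.norm_real, Real.norm_eq_abs] at h
    simpa only [norm_mul, RCLike.norm_conj] using h
  have hd : discrim (∫ ξ, ‖charFun μ ξ - charFun ν ξ‖ ^ 2 ∂(cauchyLaw (En n)))
      (-2 * ∫ ξ, ‖charFun μ ξ - charFun ν ξ‖ * ‖charFun α ξ - charFun β ξ‖ ∂(cauchyLaw (En n)))
      (∫ ξ, ‖charFun α ξ - charFun β ξ‖ ^ 2 ∂(cauchyLaw (En n))) ≤ 0 := by
    refine discrim_le_zero fun t => ?_
    have h0 : 0 ≤ ∫ ξ, (t ^ 2 * ‖charFun μ ξ - charFun ν ξ‖ ^ 2 +
        (-2 * t) * (‖charFun μ ξ - charFun ν ξ‖ * ‖charFun α ξ - charFun β ξ‖) +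
        ‖charFun α ξ - charFun β ξ‖ ^ 2) ∂(cauchyLaw (En n)) :=
      integral_nonneg fun ξ => by
        show (0 : ℝ) ≤ t ^ 2 * ‖charFun μ ξ - charFun ν ξ‖ ^ 2 +
          (-2 * t) * (‖charFun μ ξ - charFun ν ξ‖ * ‖charFun α ξ - charFun β ξ‖) +
          ‖charFun α ξ - charFun β ξ‖ ^ 2
        have h1 : t ^ 2 * ‖charFun μ ξ - charFun ν ξ‖ ^ 2 +
            (-2 * t) * (‖charFun μ ξ - charFun ν ξ‖ * ‖charFun α ξ - charFun β ξ‖) +
            ‖charFun α ξ - charFun β ξ‖ ^ 2 =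
            (t * ‖charFun μ ξ - charFun ν ξ‖ - ‖charFun α ξ - charFun β ξ‖) ^ 2 := by ring
        rw [h1]
        exact sq_nonneg _
    have e1 := integral_add (iA.const_mul (t ^ 2)) (iAB.const_mul (-2 * t))
    have e2 := integral_add ((iA.const_mul (t ^ 2)).add (iAB.const_mul (-2 * t))) iB
    simp only [Pi.add_apply] at e1 e2
    rw [e2, e1, integral_const_mul, integral_const_mul] at h0
    linarith [h0]
  rw [discrim] at hd
  rw [bil_sub, bil_sub]
  have h0 := abs_le.1 hP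
  have h1 := sq_le_sq' h0.1 h0.2
  have h2 : (-2 * ∫ ξ, ‖charFun μ ξ - charFun ν ξ‖ * ‖charFun α ξ - charFun β ξ‖
      ∂(cauchyLaw (En n))) ^ 2 = 4 * (∫ ξ, ‖charFun μ ξ - charFun ν ξ‖ *
      ‖charFun α ξ - charFun β ξ‖ ∂(cauchyLaw (En n))) ^ 2 := by ring
  rw [h2] at hd
  linarith [h1, hd]

end Pool.Agent.Helper81.MM
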